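import Mathlib

set_option autoImplicit false

/-!
# The number of subspaces of given dimension over a finite field
-/

namespace Pool.Agent.TH541.GQ

open Finset

/-- `∏_{j ≤ k} (1 - x ^ j) ≥ 1 - x - x ^ 2 + x ^ (k + 1)` -/
theorem prod_one_sub_ge (x : ℝ) (h0 : 0 ≤ x) (h1 : x ≤ 1) (k : ℕ) :
    1 - x - x ^ 2 + x ^ (k + 1) ≤ ∏ i ∈ range k, (1 - x ^ (i + 1)) := by
  induction k with
  | zero =>
      rw [Finset.prod_range_zero, zero_add, pow_one]
      nlinarith [sq_nonneg x]
  | succ k ih =>
      rw [Finset.prod_range_succ]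
      rcases Nat.eq_zero_or_pos k with rfl | hk
      · rw [Finset.prod_range_zero]
        norm_num
      · have hx : x ^ (k + 1) ≤ 1 := pow_le_one₀ h0 h1
        have h2 : 0 ≤ 1 - x ^ (k + 1) := by linarith
        have h3 := mul_le_mul_of_nonneg_right ih h2
        refine le_trans ?_ h3
        have h4 : x ^ (k + 1) * x ^ (k + 1) ≤ x ^ (k + 3) := by
          rw [← pow_add]
          exact pow_le_pow_of_le_one h0 h1 (by omega)
        have h5 : x ^ (k + 3) = x ^ (k + 1) * x ^ 2 := by ring
        have h6 : x ^ (k + 1 + 1) = x ^ (k + 1) * x := by ring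
        rw [h6]
        rw [h5] at h4
        nlinarith

/-- lower bound for the number of bases of a space of dimension `k` -/
theorem prod_ge (q : ℝ) (hq : 1 ≤ q) (k : ℕ) :
    (1 - 1 / q - 1 / q ^ 2) * q ^ (k * k) ≤ ∏ i ∈ range k, (q ^ k - q ^ i) := by
  have hq0 : 0 < q := by linarith
  have hx0 : 0 ≤ 1 / q := by positivity
  have hx1 : 1 / q ≤ 1 := by
    rw [div_le_one hq0]
    exact hq
  have h1 : ∏ i ∈ range k, (q ^ k - q ^ i) =
      q ^ (k * k) * ∏ i ∈ range k, (1 - (1 / q) ^ (i + 1)) := by
    rw [← Finset.prod_range_reflect]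
    have h2 : q ^ (k * k) = ∏ _i ∈ range k, q ^ k := by
      rw [Finset.prod_const, card_range, ← pow_mul]
    rw [h2, ← Finset.prod_mul_distrib]
    refine Finset.prod_congr rfl fun i hi => ?_
    have hi' := Finset.mem_range.1 hi
    have h3 : q ^ k = q ^ (k - 1 - i) * q ^ (i + 1) := by
      rw [← pow_add]
      congr 1
      omega
    rw [mul_sub, mul_one, one_div, inv_pow, h3, mul_assoc,
      mul_inv_cancel₀ (pow_ne_zero _ hq0.ne'), mul_one]
  rw [h1, mul_comm]
  refine mul_le_mul_of_nonneg_left ?_ (by positivity)
  have h4 := prod_one_sub_ge (1 / q) hx0 hx1 k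
  have h5 : (1 / q) ^ 2 = 1 / q ^ 2 := by
    rw [div_pow, one_pow]
  rw [h5] at h4
  have h6 : (0 : ℝ) ≤ (1 / q) ^ (k + 1) := by positivity
  linarith

section

variable {F V : Type} [Field F] [AddCommGroup V] [Module F V]

/-- the span of a linearly independent family of `k` vectors -/
noncomputable def spanMap (k : ℕ) (s : {s : Fin k → V // LinearIndependent F s}) :
    {W : Submodule F V // Module.finrank F W = k} :=
  ⟨Submodule.span F (Set.range s.1), by
    have := finrank_span_eq_card s.2
    rw [this, Fintype.card_fin]⟩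

/-- the families with a given span are the linearly independent families of the subspace -/
noncomputable def fibEquiv [FiniteDimensional F V] (k : ℕ)
    (W : {W : Submodule F V // Module.finrank F W = k}) :
    {s : {s : Fin k → V // LinearIndependent F s} // spanMap k s = W} ≃
      {s : Fin k → W.1 // LinearIndependent F s} where
  toFun s := ⟨fun i => ⟨s.1.1 i, by
      have h := congrArg Subtype.val s.2
      rw [← h]
      exact Submodule.subset_span (Set.mem_range_self i)⟩, by
    refine LinearIndependent.of_comp W.1.subtype ?_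
    exact s.1.2⟩
  invFun s := ⟨⟨fun i => (s.1 i : V), s.2.map' W.1.subtype (Submodule.ker_subtype _)⟩, by
    apply Subtype.ext
    have hli : LinearIndependent F (fun i => (s.1 i : V)) :=
      s.2.map' W.1.subtype (Submodule.ker_subtype _)
    refine Submodule.eq_of_le_of_finrank_eq ?_ ?_
    · show Submodule.span F (Set.range fun i => (s.1 i : V)) ≤ W.1
      rw [Submodule.span_le]
      rintro _ ⟨i, rfl⟩
      exact (s.1 i).2
    · show Module.finrank F (Submodule.span F (Set.range fun i => (s.1 i : V))) = _
      rw [finrank_span_eq_card hli, Fintype.card_fin, W.2]⟩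
  left_inv s := rfl
  right_inv s := rfl

/-- the number of linearly independent families of length `k` -/
theorem card_li [Finite F] [FiniteDimensional F V] (k : ℕ) (hk : k ≤ Module.finrank F V) :
    (Nat.card {s : Fin k → V // LinearIndependent F s} : ℝ) =
      ∏ i ∈ range k, ((Nat.card F : ℝ) ^ Module.finrank F V - (Nat.card F : ℝ) ^ i) := by
  classical
  have : Fintype F := Fintype.ofFinite F
  have : Finite V := Module.finite_of_finite F
  rw [card_linearIndependent hk, ← Nat.card_eq_fintype_card, Nat.cast_prod,
    ← Fin.prod_univ_eq_prod_range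
      (fun i => (Nat.card F : ℝ) ^ Module.finrank F V - (Nat.card F : ℝ) ^ i)]
  refine Finset.prod_congr rfl fun i _ => ?_
  have h1 : (Nat.card F) ^ (i : ℕ) ≤ (Nat.card F) ^ Module.finrank F V :=
    Nat.pow_le_pow_right Nat.card_pos (by have := i.2; omega)
  rw [Nat.cast_sub h1]
  push_cast
  rfl

end

theorem card_gr (F V : Type) [Field F] [Finite F] [AddCommGroup V] [Module F V]
    [FiniteDimensional F V] (k : ℕ) (hk : k ≤ Module.finrank F V) :
    (1 - 1 / (Nat.card F : ℝ) - 1 / (Nat.card F : ℝ) ^ 2) *
        (Nat.card {W : Submodule F V // Module.finrank F W = k} : ℝ) ≤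
      (Nat.card F : ℝ) ^ (k * (Module.finrank F V - k)) := by
  classical
  have : Finite V := Module.finite_of_finite F
  have : Finite (Submodule F V) := inferInstance
  have : Fintype {W : Submodule F V // Module.finrank F W = k} := Fintype.ofFinite _
  set q : ℝ := (Nat.card F : ℝ) with hq
  set m := Module.finrank F V with hm
  set N : ℝ := (Nat.card {W : Submodule F V // Module.finrank F W = k} : ℝ) with hN
  have hq1 : 1 ≤ q := by
    rw [hq]
    exact_mod_cast Nat.card_pos
  have hq0 : 0 < q := by linarith
  set P : ℝ := ∏ i ∈ range k, (q ^ k - q ^ i) with hP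
  have hcount : (Nat.card {s : Fin k → V // LinearIndependent F s} : ℝ) = N * P := by
    have h1 : Nat.card {s : Fin k → V // LinearIndependent F s} =
        ∑ W : {W : Submodule F V // Module.finrank F W = k},
          Nat.card {s : {s : Fin k → V // LinearIndependent F s} // spanMap k s = W} := by
      rw [← Nat.card_congr (Equiv.sigmaFiberEquiv (spanMap (F := F) (V := V) k)), Nat.card_sigma]
    rw [h1, Nat.cast_sum]
    have h2 : ∀ W : {W : Submodule F V // Module.finrank F W = k},
        (Nat.card {s : {s : Fin k → V // LinearIndependent F s} // spanMap k s = W} : ℝ) = P := by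
      intro W
      rw [Nat.card_congr (fibEquiv k W), card_li k (le_of_eq W.2.symm), W.2]
    rw [Finset.sum_congr rfl fun W _ => h2 W, Finset.sum_const, nsmul_eq_mul, Finset.card_univ,
      ← Nat.card_eq_fintype_card]
  have hupper : N * P ≤ q ^ (m * k) := by
    rw [← hcount, card_li k hk]
    calc ∏ i ∈ range k, (q ^ m - q ^ i) ≤ ∏ _i ∈ range k, q ^ m := by
          refine Finset.prod_le_prod (fun i hi => ?_) fun i _ => ?_
          · have : q ^ i ≤ q ^ m :=
              pow_le_pow_right₀ hq1 (by have := Finset.mem_range.1 hi; omega)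
            linarith
          · have : 0 ≤ q ^ i := by positivity
            linarith
      _ = q ^ (m * k) := by rw [Finset.prod_const, card_range, ← pow_mul]
  have hlow := prod_ge q hq1 k
  have hN0 : 0 ≤ N := Nat.cast_nonneg _
  have h3 : ((1 - 1 / q - 1 / q ^ 2) * N) * q ^ (k * k) ≤ q ^ (k * (m - k)) * q ^ (k * k) := by
    calc ((1 - 1 / q - 1 / q ^ 2) * N) * q ^ (k * k)
        = N * ((1 - 1 / q - 1 / q ^ 2) * q ^ (k * k)) := by ring
      _ ≤ N * P := mul_le_mul_of_nonneg_left hlow hN0
      _ ≤ q ^ (m * k) := hupper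
      _ = q ^ (k * (m - k)) * q ^ (k * k) := by
          rw [← pow_add, ← Nat.mul_add]
          congr 1
          rw [mul_comm]
          congr 1
          omega
  exact le_of_mul_le_mul_right h3 (by positivity)

end Pool.Agent.TH541.GQ
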